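import Mathlib

/-!
# MP_cdb8a2_al: the symmetric group of degree three is not the Galois group of an envelope of `ℤ`

A homomorphism `φ : ℤ → G` is an envelope if every homomorphism `ℤ → G` is `f φ` for an
endomorphism `f` of `G` and every endomorphism `f` of `G` with `f φ = φ` is an automorphism.  We show
that no envelope of `ℤ`, in any group `G` of any cardinality, has Galois group `S₃`.  So the answer
to Q1 is no.

Let `c = φ 1` and suppose that the Galois group `Γ` (the stabiliser of `c` in `Aut G`) is isomorphic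
to `S₃`.  The inner automorphism given by `c` is in the centre of `Γ`, so `c` is central in `G`, and
all inner automorphisms are in `Γ`.

If `G` is commutative then the endomorphisms `r` with `r c = 1` form an abelian group `L` under
pointwise multiplication and `r ↦ (x ↦ x * r x)` is a bijection of `L` with `Γ`.  So `L` has order
six and is cyclic, all elements of `L` are powers of one of them, and they commute under
composition.  Then `Γ` is commutative, a contradiction.

If `G` is not commutative then `G → Inn G` is onto `Γ` with the centre `Z` of `G` as kernel.  Let `b`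
and `a₀` be elements of `G` which correspond to a transposition and to a three-cycle, and
`z = b a₀ b⁻¹ a₀`, an element of `Z`.  Then `a = a₀ ^ 4 * z ^ (-2)` satisfies `a ^ 3 = 1` and
`b a b⁻¹ = a⁻¹`, and `G` is the semidirect product of the normal subgroup `⟨a⟩` and the subgroup
`Z ∪ b Z`, which contains `c`.  The projection to this subgroup is an endomorphism of `G` which fixes
`c` and is not injective, a contradiction.
-/

open scoped Pointwise

universe u

namespace Pool.Agent.Results.MP_cdb8a2_al.SymmetricGroupNever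

/-- `φ : ℤ → G` is an envelope of `ℤ` (written multiplicatively): every homomorphism `ℤ → G` factors
as `f ∘ φ`, and every endomorphism `f` of `G` with `f ∘ φ = φ` is an automorphism. -/
def IsEnvelope {G : Type u} [Group G] (φ : Multiplicative ℤ →* G) : Prop :=
  (∀ ψ : Multiplicative ℤ →* G, ∃ f : G →* G, f.comp φ = ψ) ∧
    ∀ f : G →* G, f.comp φ = φ → Function.Bijective f

/-- The Galois group of `φ`: all automorphisms `f` of `G` with `f ∘ φ = φ`. -/
def Gal {G : Type u} [Group G] (φ : Multiplicative ℤ →* G) : Subgroup (MulAut G) where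
  carrier := {f | ∀ x, f (φ x) = φ x}
  mul_mem' := fun {a b} ha hb x => by rw [MulAut.mul_apply, hb x, ha x]
  one_mem' := fun x => rfl
  inv_mem' := fun {a} ha x => by
    have h := ha x
    rw [MulAut.inv_apply, MulEquiv.symm_apply_eq]
    exact h.symm

/-- The commutative case. -/
lemma abel {G : Type u} [CommGroup G] (c : G)
    (h2 : ∀ f : G →* G, f c = c → Function.Bijective f) (Γ : Subgroup (MulAut G))
    (hΓ : ∀ f, f ∈ Γ ↔ f c = c) (e : Γ ≃* Equiv.Perm (Fin 3)) : False := by
  classical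
  let L : Subgroup (G →* G) :=
    { carrier := {r | r c = 1}
      mul_mem' := fun {a b} (ha : a c = 1) (hb : b c = 1) => by
        show (a * b) c = 1
        rw [MonoidHom.mul_apply, ha, hb, one_mul]
      one_mem' := rfl
      inv_mem' := fun {a} (ha : a c = 1) => by
        show a⁻¹ c = 1
        rw [MonoidHom.inv_apply, ha, inv_one] }
  have hL : ∀ r, r ∈ L ↔ r c = 1 := fun r => Iff.rfl
  let T : Γ → L := fun f => ⟨(f : MulAut G).toMonoidHom * (MonoidHom.id G)⁻¹, by
    rw [hL, MonoidHom.mul_apply, MonoidHom.inv_apply, MonoidHom.id_apply]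
    have := (hΓ f).1 f.2
    show (f : MulAut G) c * c⁻¹ = 1
    rw [this, mul_inv_cancel]⟩
  have hT : ∀ (f : Γ) (x : G), (f : MulAut G) x = (T f : G →* G) x * x := by
    intro f x
    show (f : MulAut G) x = (f : MulAut G) x * x⁻¹ * x
    rw [inv_mul_cancel_right]
  have hTinj : Function.Injective T := by
    intro f g hfg
    apply Subtype.ext
    apply MulEquiv.ext
    intro x
    rw [hT, hT, hfg]
  have hTsurj : Function.Surjective T := by
    intro r
    have hr : (r : G →* G) c = 1 := r.2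
    have hb : Function.Bijective ((r : G →* G) * MonoidHom.id G) := by
      apply h2
      rw [MonoidHom.mul_apply, hr, one_mul, MonoidHom.id_apply]
    refine ⟨⟨MulEquiv.ofBijective _ hb, ?_⟩, ?_⟩
    · rw [hΓ]
      show ((r : G →* G) * MonoidHom.id G) c = c
      rw [MonoidHom.mul_apply, hr, one_mul, MonoidHom.id_apply]
    · apply Subtype.ext
      apply MonoidHom.ext
      intro x
      show (r : G →* G) x * x * x⁻¹ = (r : G →* G) x
      rw [mul_inv_cancel_right]
  have hcard : Nat.card L = 6 := by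
    rw [← Nat.card_congr (Equiv.ofBijective T ⟨hTinj, hTsurj⟩), Nat.card_congr e.toEquiv,
      Nat.card_eq_fintype_card, Fintype.card_perm, Fintype.card_fin]
    rfl
  have hfin : Finite L := Nat.finite_of_card_ne_zero (by rw [hcard]; norm_num)
  have hcyc : IsCyclic L := by
    have : Fact (Nat.Prime 2) := ⟨Nat.prime_two⟩
    have : Fact (Nat.Prime 3) := ⟨Nat.prime_three⟩
    obtain ⟨x, hx⟩ := exists_prime_orderOf_dvd_card' (G := L) 2 (by rw [hcard]; norm_num)
    obtain ⟨y, hy⟩ := exists_prime_orderOf_dvd_card' (G := L) 3 (by rw [hcard]; norm_num)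
    refine isCyclic_of_orderOf_eq_card (x * y) ?_
    rw [(Commute.all x y).orderOf_mul_eq_mul_orderOf_of_coprime (by rw [hx, hy]; norm_num), hx, hy,
      hcard]
  obtain ⟨t, ht⟩ := hcyc.exists_generator
  have hcomm : ∀ (r s : L) (x : G), (r : G →* G) ((s : G →* G) x) = (s : G →* G) ((r : G →* G) x) := by
    intro r s x
    obtain ⟨m, hm⟩ := Subgroup.mem_zpowers_iff.1 (ht r)
    obtain ⟨n, hn⟩ := Subgroup.mem_zpowers_iff.1 (ht s)
    have hr : ∀ y, (r : G →* G) y = ((t : G →* G) y) ^ m := by
      intro y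
      rw [← hm, Subgroup.coe_zpow, MonoidHom.zpow_apply]
    have hs : ∀ y, (s : G →* G) y = ((t : G →* G) y) ^ n := by
      intro y
      rw [← hn, Subgroup.coe_zpow, MonoidHom.zpow_apply]
    rw [hr, hs, hs, hr, map_zpow, map_zpow, ← zpow_mul, ← zpow_mul, mul_comm]
  have hΓc : ∀ f g : Γ, f * g = g * f := by
    intro f g
    apply Subtype.ext
    apply MulEquiv.ext
    intro x
    show (f : MulAut G) ((g : MulAut G) x) = (g : MulAut G) ((f : MulAut G) x)
    rw [hT g x, hT f x, hT f, hT g, map_mul, map_mul, hcomm]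
    exact mul_mul_mul_comm _ _ _ _
  have h1 := hΓc (e.symm (Equiv.swap 0 1)) (e.symm (Equiv.swap 1 2))
  rw [← map_mul, ← map_mul] at h1
  have h3 := e.symm.injective h1
  revert h3
  decide

/-- The normal form of a permutation of three points. -/
lemma perm_form (s : Equiv.Perm (Fin 3)) : ∃ i j : ℕ,
    s = (Equiv.swap 0 1 * Equiv.swap 1 2) ^ i * (Equiv.swap 0 1) ^ j := by
  have h : ∀ s : Equiv.Perm (Fin 3), ∃ i : Fin 3, ∃ j : Fin 2,
      s = (Equiv.swap 0 1 * Equiv.swap 1 2) ^ (i : ℕ) * (Equiv.swap 0 1) ^ (j : ℕ) := by decide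
  obtain ⟨i, j, hij⟩ := h s
  exact ⟨i, j, hij⟩

/-- The case of a homomorphism onto `S₃` with central kernel. -/
lemma onto {G : Type u} [Group G] (c : G) (hc : c ∈ Subgroup.center G)
    (h2 : ∀ f : G →* G, f c = c → Function.Bijective f) (π : G →* Equiv.Perm (Fin 3))
    (hπ : Function.Surjective π) (hker : ∀ g, π g = 1 ↔ g ∈ Subgroup.center G) : False := by
  classical
  obtain ⟨b, hb⟩ := hπ (Equiv.swap 0 1)
  obtain ⟨a₀, ha₀⟩ := hπ (Equiv.swap 0 1 * Equiv.swap 1 2)
  set σ : Equiv.Perm (Fin 3) := Equiv.swap 0 1 with hσ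
  set τ : Equiv.Perm (Fin 3) := Equiv.swap 0 1 * Equiv.swap 1 2 with hτ
  have hτ3 : τ ^ 3 = 1 := by rw [hτ]; decide
  have hστ : σ * τ * σ⁻¹ * τ = 1 := by rw [hτ, hσ]; decide
  set z : G := b * a₀ * b⁻¹ * a₀ with hz
  have hzc : z ∈ Subgroup.center G := by
    rw [← hker, hz]
    simp only [map_mul, map_inv, hb, ha₀]
    exact hστ
  have hzcomm : ∀ g : G, Commute z g := fun g => (Subgroup.mem_center_iff.1 hzc g).symm
  have hcube : a₀ ^ 3 ∈ Subgroup.center G := by
    rw [← hker, map_pow, ha₀, hτ3]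
  have hconj : b * a₀ * b⁻¹ = z * a₀⁻¹ := by rw [hz]; group
  have h6 : a₀ ^ 3 * a₀ ^ 3 = z ^ 3 := by
    have e1 : (b * a₀ * b⁻¹) ^ 3 = a₀ ^ 3 := by
      rw [conj_pow]
      have := Subgroup.mem_center_iff.1 hcube b
      rw [this]
      group
    rw [hconj, ((hzcomm a₀⁻¹)).mul_pow] at e1
    calc a₀ ^ 3 * a₀ ^ 3 = (z ^ 3 * a₀⁻¹ ^ 3) * a₀ ^ 3 := by rw [e1]
      _ = z ^ 3 := by rw [inv_pow, inv_mul_cancel_right]
  set a : G := a₀ ^ 4 * (z ^ 2)⁻¹ with ha
  have hz2 : ∀ g : G, Commute (z ^ 2)⁻¹ g := fun g => ((hzcomm g).pow_left 2).inv_left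
  have ha3 : a ^ 3 = 1 := by
    rw [ha, ((hz2 (a₀ ^ 4)).symm).mul_pow, ← pow_mul, inv_pow, ← pow_mul]
    have e2 : a₀ ^ (4 * 3) = z ^ (2 * 3) := by
      calc a₀ ^ (4 * 3) = (a₀ ^ 3 * a₀ ^ 3) * (a₀ ^ 3 * a₀ ^ 3) := by
            simp only [← pow_add]
        _ = z ^ 3 * z ^ 3 := by rw [h6]
        _ = z ^ (2 * 3) := by rw [← pow_add]
    rw [e2, mul_inv_cancel]
  have hbab : b * a * b⁻¹ = a⁻¹ := by
    have e3 : b * a * b⁻¹ = (b * a₀ * b⁻¹) ^ 4 * (z ^ 2)⁻¹ := by
      rw [conj_pow, ha, mul_assoc b, mul_assoc (a₀ ^ 4), (hz2 b⁻¹).eq]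
      simp only [mul_assoc]
    rw [e3, hconj, (hzcomm a₀⁻¹).mul_pow, ha, mul_inv_rev, inv_inv, inv_pow, mul_assoc,
      ← (hz2 (a₀ ^ 4)⁻¹).eq, ← mul_assoc]
    congr 1
    rw [mul_inv_eq_iff_eq_mul, ← pow_add]
  have hπa : π a = τ := by
    rw [ha, map_mul, map_inv, map_pow, map_pow, ha₀, (hker z).2 hzc, one_pow, inv_one, mul_one,
      pow_succ, hτ3, one_mul]
  have hdec : ∀ g : G, ∃ i j : ℕ, ∃ w ∈ Subgroup.center G, g = a ^ i * b ^ j * w := by
    intro g
    obtain ⟨i, j, hij⟩ := perm_form (π g)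
    refine ⟨i, j, (a ^ i * b ^ j)⁻¹ * g, ?_, by group⟩
    rw [← hker, map_mul, map_inv, map_mul, map_pow, map_pow, hπa, hb, hij, inv_mul_cancel]
  set A : Subgroup G := Subgroup.zpowers a with hA
  set B : Subgroup G := (Subgroup.zpowers σ).comap π with hB
  have haA : a ∈ A := Subgroup.mem_zpowers a
  have hbA : ∀ x ∈ A, b * x * b⁻¹ ∈ A := by
    intro x hx
    obtain ⟨n, rfl⟩ := Subgroup.mem_zpowers_iff.1 hx
    rw [← conj_zpow, hbab]
    exact A.zpow_mem (A.inv_mem haA) n
  have hbA' : ∀ (j : ℕ), ∀ x ∈ A, b ^ j * x * (b ^ j)⁻¹ ∈ A := by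
    intro j
    induction j with
    | zero => intro x hx; simpa using hx
    | succ j ih =>
      intro x hx
      have := ih _ (hbA x hx)
      have e4 : b ^ (j + 1) * x * (b ^ (j + 1))⁻¹ = b ^ j * (b * x * b⁻¹) * (b ^ j)⁻¹ := by
        rw [pow_succ]; group
      rw [e4]
      exact this
  have hAn : A.Normal := by
    refine ⟨fun x hx g => ?_⟩
    obtain ⟨i, j, w, hw, rfl⟩ := hdec g
    have e5 : a ^ i * b ^ j * w * x * (a ^ i * b ^ j * w)⁻¹ =
        a ^ i * (b ^ j * x * (b ^ j)⁻¹) * (a ^ i)⁻¹ := by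
      have hwx : w * x = x * w := (Subgroup.mem_center_iff.1 hw x).symm
      calc a ^ i * b ^ j * w * x * (a ^ i * b ^ j * w)⁻¹
          = a ^ i * b ^ j * (w * x) * (a ^ i * b ^ j * w)⁻¹ := by simp only [mul_assoc]
        _ = a ^ i * b ^ j * (x * w) * (a ^ i * b ^ j * w)⁻¹ := by rw [hwx]
        _ = _ := by group
    rw [e5]
    exact A.mul_mem (A.mul_mem (A.pow_mem haA i) (hbA' j x hx)) (A.inv_mem (A.pow_mem haA i))
  have hdisj : Disjoint B A := by
    rw [Subgroup.disjoint_def]
    intro x hxB hxA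
    obtain ⟨n, rfl⟩ := Subgroup.mem_zpowers_iff.1 hxA
    rw [hB, Subgroup.mem_comap, map_zpow, hπa] at hxB
    have h7 : ∀ n : ℤ, τ ^ n ∈ Subgroup.zpowers σ → τ ^ n = 1 := by
      intro n hn
      have h8 : (τ ^ n) ^ 3 = 1 := by
        rw [← zpow_natCast, ← zpow_mul, mul_comm, zpow_mul, zpow_natCast, hτ3, one_zpow]
      have h9 : (τ ^ n) ^ 2 = 1 := by
        obtain ⟨k, hk⟩ := Subgroup.mem_zpowers_iff.1 hn
        have hσ2 : σ ^ 2 = 1 := by rw [hσ]; decide
        rw [← hk, ← zpow_natCast, ← zpow_mul, mul_comm, zpow_mul, zpow_natCast, hσ2, one_zpow]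
      rw [pow_succ, h9, one_mul] at h8
      exact h8
    have h10 := h7 n hxB
    have hord : orderOf τ = 3 := by
      refine orderOf_eq_prime hτ3 ?_
      rw [hτ]; decide
    have h11 : (3 : ℤ) ∣ n := by
      have := orderOf_dvd_iff_zpow_eq_one.2 h10
      rw [hord] at this
      exact_mod_cast this
    obtain ⟨k, rfl⟩ := h11
    rw [zpow_mul, zpow_ofNat, ha3, one_zpow]
  have hmul : ((B : Set G) * (A : Set G)) = Set.univ := by
    rw [Set.eq_univ_iff_forall]
    intro g
    obtain ⟨i, j, w, hw, rfl⟩ := hdec g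
    have hbB : b ^ j * w ∈ B := by
      rw [hB, Subgroup.mem_comap, map_mul, map_pow, hb, (hker w).2 hw, mul_one]
      exact (Subgroup.zpowers σ).pow_mem (Subgroup.mem_zpowers σ) j
    refine ⟨b ^ j * w, hbB, (b ^ j * w)⁻¹ * a ^ i * (b ^ j * w), ?_, by group⟩
    have := hAn.conj_mem _ (A.pow_mem haA i) (b ^ j * w)⁻¹
    rwa [inv_inv] at this
  have hcompl : B.IsComplement' A := Subgroup.isComplement'_of_disjoint_and_mul_eq_univ hdisj hmul
  let E : G ⧸ A ≃* B := hcompl.QuotientMulEquiv
  have hcB : c ∈ B := by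
    rw [hB, Subgroup.mem_comap, (hker c).2 hc]
    exact one_mem _
  let f : G →* G := B.subtype.comp (E.toMonoidHom.comp (QuotientGroup.mk' A))
  have hfc : f c = c := by
    have h12 : E (QuotientGroup.mk' A c) = ⟨c, hcB⟩ := by
      rw [← MulEquiv.eq_symm_apply]
      rfl
    show ((E (QuotientGroup.mk' A c) : B) : G) = c
    rw [h12]
  have hfa : f a = 1 := by
    show ((E (QuotientGroup.mk' A a) : B) : G) = 1
    have h13 : QuotientGroup.mk' A a = 1 := (QuotientGroup.eq_one_iff a).2 haA
    rw [h13, map_one]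
    rfl
  have hinj := (h2 f hfc).1
  have ha1 : a = 1 := hinj (hfa.trans (map_one f).symm)
  rw [ha1, map_one] at hπa
  revert hπa
  rw [hτ]
  decide

/-- No envelope of `ℤ` has Galois group `S₃`; only the second half of the definition of an envelope
is used. -/
theorem never {G : Type u} [Group G] (c : G)
    (h2 : ∀ f : G →* G, f c = c → Function.Bijective f) (Γ : Subgroup (MulAut G))
    (hΓ : ∀ f, f ∈ Γ ↔ f c = c) (e : Γ ≃* Equiv.Perm (Fin 3)) : False := by
  classical
  -- `c` is central
  have hconjc : MulAut.conj c ∈ Γ := by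
    rw [hΓ, MulAut.conj_apply, mul_inv_cancel_right]
  have hcen : ∀ f : Γ, f * ⟨_, hconjc⟩ = ⟨_, hconjc⟩ * f := by
    intro f
    apply Subtype.ext
    apply MulEquiv.ext
    intro x
    show (f : MulAut G) (c * x * c⁻¹) = c * (f : MulAut G) x * c⁻¹
    rw [map_mul, map_mul, map_inv, (hΓ f).1 f.2]
  have htriv : ∀ s : Equiv.Perm (Fin 3), (∀ t, t * s = s * t) → s = 1 := by decide
  have hone : (⟨_, hconjc⟩ : Γ) = 1 := by
    apply e.injective
    rw [map_one]
    apply htriv
    intro t
    have := congrArg e (hcen (e.symm t))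
    rwa [map_mul, map_mul, e.apply_symm_apply] at this
  have hcc : ∀ g : G, g * c = c * g := by
    intro g
    have h3 : MulAut.conj c g = g := by
      have := congrArg (fun f : Γ => (f : MulAut G) g) hone
      exact this
    rw [MulAut.conj_apply, mul_inv_eq_iff_eq_mul] at h3
    exact h3.symm
  have hc : c ∈ Subgroup.center G := Subgroup.mem_center_iff.2 hcc
  -- inner automorphisms are in `Γ`
  have hinn : ∀ g : G, MulAut.conj g ∈ Γ := by
    intro g
    rw [hΓ, MulAut.conj_apply, hcc, mul_inv_cancel_right]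
  let κ : G →* Γ := MulAut.conj.codRestrict Γ hinn
  let π : G →* Equiv.Perm (Fin 3) := e.toMonoidHom.comp κ
  have hker : ∀ g, π g = 1 ↔ g ∈ Subgroup.center G := by
    intro g
    have h4 : π g = 1 ↔ κ g = 1 := by
      show e (κ g) = 1 ↔ κ g = 1
      exact map_eq_one_iff e e.injective
    rw [h4, Subgroup.mem_center_iff]
    constructor
    · intro h x
      have h5 : MulAut.conj g x = x := congrArg (fun f : Γ => (f : MulAut G) x) h
      rw [MulAut.conj_apply, mul_inv_eq_iff_eq_mul] at h5
      exact h5.symm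
    · intro h
      apply Subtype.ext
      apply MulEquiv.ext
      intro x
      show g * x * g⁻¹ = x
      rw [← h x, mul_inv_cancel_right]
  by_cases hsurj : Function.Surjective π
  · exact onto c hc h2 π hsurj hker
  · -- `G` is commutative
    have hcyc : IsCyclic π.range := by
      have hdvd : Nat.card π.range ∣ 6 := by
        have := Subgroup.card_subgroup_dvd_card π.range
        rwa [Nat.card_eq_fintype_card (α := Equiv.Perm (Fin 3)), Fintype.card_perm,
          Fintype.card_fin] at this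
      have hne : Nat.card π.range ≠ 6 := by
        intro h6
        apply hsurj
        rw [← MonoidHom.range_eq_top]
        apply Subgroup.eq_top_of_card_eq
        rw [h6, Nat.card_eq_fintype_card, Fintype.card_perm, Fintype.card_fin]
        rfl
      have hmem : Nat.card π.range ∈ Nat.divisors 6 := Nat.mem_divisors.2 ⟨hdvd, by norm_num⟩
      have hdiv : Nat.divisors 6 = {1, 2, 3, 6} := by decide
      rw [hdiv] at hmem
      simp only [Finset.mem_insert, Finset.mem_singleton] at hmem
      rcases hmem with h | h | h | h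
      · have : Subsingleton π.range := (Nat.card_eq_one_iff_unique.1 h).1
        infer_instance
      · have : Fact (Nat.Prime 2) := ⟨Nat.prime_two⟩
        exact isCyclic_of_prime_card h
      · have : Fact (Nat.Prime 3) := ⟨Nat.prime_three⟩
        exact isCyclic_of_prime_card h
      · exact absurd h hne
    have hker' : π.rangeRestrict.ker ≤ Subgroup.center G := by
      intro g hg
      rw [MonoidHom.mem_ker] at hg
      exact (hker g).1 (congrArg Subtype.val hg)
    let _ : CommGroup G := commGroupOfCyclicCenterQuotient π.rangeRestrict hker'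
    exact abel c h2 Γ hΓ e

/-- No envelope of `ℤ`, in a group of any cardinality, has Galois group `S₃`; so it is not true that
for every group `K` there are arbitrarily large envelopes of `ℤ` with Galois group `K`. -/
theorem result :
    (∀ (G : Type u) [Group G] (φ : Multiplicative ℤ →* G), IsEnvelope φ →
      ¬ Nonempty (Gal φ ≃* Equiv.Perm (Fin 3))) ∧
    ¬ ∀ (K : Type u) [Group K] (κ : Cardinal.{u}), ∃ (G : Type u) (_ : Group G)
      (φ : Multiplicative ℤ →* G), IsEnvelope φ ∧ κ ≤ Cardinal.mk G ∧ Nonempty (Gal φ ≃* K) := by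
  have key : ∀ (G : Type u) [Group G] (φ : Multiplicative ℤ →* G), IsEnvelope φ →
      ¬ Nonempty (Gal φ ≃* Equiv.Perm (Fin 3)) := by
    rintro G _ φ hφ ⟨e⟩
    have hgen : ∀ (f g : Multiplicative ℤ →* G), f (Multiplicative.ofAdd 1) =
        g (Multiplicative.ofAdd 1) → f = g := fun f g h => MonoidHom.ext_mint h
    refine never (φ (Multiplicative.ofAdd 1)) (fun f hf => hφ.2 f (hgen _ _ hf)) (Gal φ) ?_ e
    intro f
    constructor
    · intro h
      exact h _
    · intro h x
      have := hgen (f.toMonoidHom.comp φ) φ h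
      exact DFunLike.congr_fun this x
  refine ⟨key, fun h => ?_⟩
  obtain ⟨G, _, φ, hφ, -, ⟨e⟩⟩ := h (ULift.{u} (Equiv.Perm (Fin 3))) 0
  exact key G φ hφ ⟨e.trans MulEquiv.ulift⟩

end Pool.Agent.Results.MP_cdb8a2_al.SymmetricGroupNever
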